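import Pool.Agent.N95.GP.Core

/-!
MP_5b1cbc_ag, Q1: the images of small degree of the covers of the subvarieties of generic complete
intersections are of general type and pseudo-geometrically hyperbolic, with linear bounds for the
degrees of all curves and of all coverings of bounded degree of curves.

Let `K` be an algebraically closed field of characteristic `0`, and let `k` be a field contained in
`K`, with algebraic closure `k'` in `K`. A *generic complete intersection* `X` (`GenericCI k K`, in
`Pool/Agent/N111/GI/Maps.lean`) is the intersection of a closed subset `V` of a projective space,
defined over `k'`, of dimension at most `m`, and of hypersurfaces `F a = 0` of degrees `d a`, where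
the ratios of the coefficients of `F a` to one of them are, for all `a` together, algebraically
independent over `k`. Let `S` be the sum of the numbers `d a + 1`.

Let `M` be a projective variety over `K`, of dimension `w ≥ 1`, with function field `L` and generic
point `u` in homogeneous coordinates. An `r`-valued map from `M` to `X` is a correspondence
`M ← W → X`, where `W → M` is a generically finite rational map of degree at most `r`: it is given by
the function field `L'` of `W`, an extension of `L` of degree at most `r`, and a point `x` of `X` with
coordinates in `L'`. The map `W → X` is generically finite onto its image if `L'` is algebraic over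
`coords K x`, the field generated by the ratios of the coordinates of `x`. For instance, `M` can be
the quotient of a variety `W` with a generically finite map to `X` by a finite group of order at most
`r`, or any variety which is dominated by `W` by a rational map of degree at most `r`.

The *values* of an `r`-valued map (`MVMap`, `MVMap.values`, in `Pool/Agent/N95/GP/Dom.lean`; here
`W → X` is arbitrary, and `S ≥ 2 m + max (R, 2)` for a given number `R`) are the ratios of the
coordinates of its branches, which are algebraic functions on `M`. For instance, the symmetric power
of order `r` of `X` has an `r`-valued map to `X`, and all functions on the symmetric power, and on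
its closed subvarieties, are algebraic over its values.

`GeneralType K L w` (`Pool/Agent/W602/GT/Defs.lean`): the varieties with function field `L` are of
general type. `PseudoGeomHyp K u` (`Pool/Agent/W602/RG/TB.lean`): off a proper closed subset of the
variety with generic point `u`, for every pointed curve there are finitely many morphisms to the
variety with a given value at the marked point. `CoverBound K ρ u` (`Pool/Agent/N95/GP/Dom.lean`):
off a proper closed subset, the degree of every morphism to the variety from a covering, of degree at
most `ρ`, of a smooth projective curve `C` is at most `A max (2 g (C) - 2, 0)`, with a constant `A`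
which does not depend on the curves (for `ρ = 1`, this is the linear bound for all curves; curves of
gonality at most `ρ` lie in the closed subset).

The proof: for a curve `C` and a point `x` of `X` over an extension of degree `s` of its function
field, the traces of the products of `s` coordinates of `x` and of a twisted form (which is obtained
with derivations dual to the coefficients of the equations) are regular forms on `C`, and the heights
of their ratios are at most `2 g (C) - 2`. If the degrees of the points `x`, for a sequence of varying
curves, were not bounded linearly, then in an ultraproduct of the function fields the limit of the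
points would be on a line in `X` over the algebraic closure of the field of the sequences of linearly
bounded height (by the lemma on sums of powers of the starting file `BoundedDegree`), but `X` contains
no lines.
-/

set_option autoImplicit false
set_option linter.overlappingInstances false

namespace Pool.Agent.Results.MP_5b1cbc_ag.MultivaluedMaps

open Pool.Agent.W602.GT (GeneralType coords)
open Pool.Agent.W602.RG (PseudoGeomHyp)
open Pool.Agent.N111.GI (GenericCI)
open Pool.Agent.N95.GP (MVMap CoverBound)

/-- The function `z` on `M` is algebraic over the field which is generated by the values of all
`r`-valued maps from `M` to generic complete intersections with `S ≥ 2 m + max (R, 2)`. -/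
def AlgebraicOverValues (k K : Type) [Field k] [Field K] [Algebra k K] (r R : ℕ) {L : Type}
    [Field L] [Algebra K L] (z : L) : Prop :=
  IsAlgebraic (IntermediateField.adjoin K
      (⋃ C : MVMap k K L r R, C.values (AlgebraicClosure L)))
    (algebraMap L (AlgebraicClosure L) z)

/-- Let `M` be any projective variety over `K`, of dimension `w ≥ 1`, with function field `L` and
generic point `u`, and let `r`, `ρ` be positive integers.

**(1)** If there is an `r`-valued map `M ← W → X` to a generic complete intersection with
`S ≥ 2 m + max (ρ r, 2)` which is generically finite over its image, then `M` is of general type and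
pseudo-geometrically hyperbolic, and the degrees of the coverings of degree at most `ρ` of curves
are bounded linearly off a proper closed subset.

**(2)** The last two properties hold if all functions on `M` are algebraic over the values of all
`r`-valued maps to generic complete intersections with `S ≥ 2 m + max (ρ r, 2)`.

**(3)** In general, the functions on `M` which are algebraic over these values are the function
field `L₀` of the base of a rational fibration `M ⇢ M₀` (`L₀` is algebraically closed in `L`), and
all projective models of `M₀` have the two properties. -/
theorem result {k K L : Type} [Field k] [Field K] [IsAlgClosed K] [CharZero K] [Algebra k K]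
    [Field L] [Algebra K L] {N : ℕ} {u : Fin (N + 1) → L} (hu : u ≠ 0) (hgen : coords K u = ⊤)
    {w : ℕ} (hw : Algebra.trdeg K L = w) (hw1 : 1 ≤ w) (r ρ : ℕ) (hρ : 1 ≤ ρ) :
    (∀ (X : GenericCI k K) (L' : Type) [Field L'] [Algebra K L'] [Algebra L L']
      [IsScalarTower K L L'] [FiniteDimensional L L'] (x : Fin (X.n + 1) → L'),
      X.Point x → Algebra.IsAlgebraic (coords K x) L' → Module.finrank L L' ≤ r →
      2 * X.m + ρ * r ≤ ∑ a, (X.d a + 1) → 2 * X.m + 2 ≤ ∑ a, (X.d a + 1) →
      GeneralType K L w ∧ PseudoGeomHyp K u ∧ CoverBound K ρ u) ∧
    ((∀ z : L, AlgebraicOverValues k K r (ρ * r) z) → PseudoGeomHyp K u ∧ CoverBound K ρ u) ∧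
    ∃ L₀ : IntermediateField K L,
      (∀ z : L, z ∈ L₀ ↔ AlgebraicOverValues k K r (ρ * r) z) ∧
      (∀ z : L, IsAlgebraic L₀ z → z ∈ L₀) ∧
      ∀ (q : ℕ) (v : Fin (q + 1) → L₀), v ≠ 0 → coords K v = ⊤ →
        PseudoGeomHyp K v ∧ CoverBound K ρ v := by
  classical
  have hess : Algebra.EssFiniteType K L := Pool.Agent.N111.GI.ess_of_gen hgen
  have hac : IsAlgClosed (algebraicClosure k K) := (algebraicClosure.isAlgClosure k K).isAlgClosed
  refine ⟨fun X L' _ _ _ _ _ x hx halg hr hd hd2 => ?_, fun h => ?_,
    Pool.Agent.N95.GP.vcore k K L r (ρ * r), fun z => ?_, fun z hz =>
    Pool.Agent.N95.GP.vcore_closed hz, fun q v hv hv' => ?_⟩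
  · have h1 : CoverBound K ρ u :=
      Pool.Agent.N95.GP.joint_bound (k := k) (r := r) (AlgebraicClosure L) hu hgen
        (Pool.Agent.N95.GP.joint_val ⟨X, hd, hd2, L', hr, x, hx⟩ halg (AlgebraicClosure L))
    refine ⟨?_, Pool.Agent.Y216.pointed_of_bound (h1.curve hρ), h1⟩
    have h2 : 1 * r ≤ ρ * r := Nat.mul_le_mul_right r hρ
    exact Pool.Agent.N111.GI.img_line X.V X.V_form X.V_dim hw1 hr (by omega) hd2 X.F X.F_form X.I₀
      X.coeff_ne X.generic.algebraicClosure hw hx.ne halg hx.mem_V hx.mem_F
  · have h1 : CoverBound K ρ u :=
      Pool.Agent.N95.GP.joint_bound (k := k) (r := r) (AlgebraicClosure L) hu hgen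
        (fun z => Pool.Agent.N111.FT.mem_aclo.2 (h z))
    exact ⟨Pool.Agent.Y216.pointed_of_bound (h1.curve hρ), h1⟩
  · exact Pool.Agent.N111.FT.mem_aclo
  · have h1 : CoverBound K ρ v := Pool.Agent.N95.GP.vcore_bound hv hv'
    exact ⟨Pool.Agent.Y216.pointed_of_bound (h1.curve hρ), h1⟩

end Pool.Agent.Results.MP_5b1cbc_ag.MultivaluedMaps
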