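import Pool.Agent.N145.SX.All3

/-!
# Varieties dominated by the product of a variety and a curve: general type or covered by rational or elliptic curves

Let `X` be a smooth projective variety over `ℂ` of dimension `m` and `C` a smooth projective curve of
any genus. Let `X × C ⇢ W` be a dominant rational map of finite degree to a variety `W`. It need not
be related to the product structure, and it need not be the quotient by a group. Let `d` be the number
of different points of `X` below a general fibre of `X × C ⇢ W`, i.e. the degree over `W` of the image
of `X × C` in `W × X`; it is at most the degree of `X × C ⇢ W`, which may be arbitrarily large.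

Suppose that the canonical forms of `X` separate `2 d` general points: for some nonempty open subset
`U` of `X` any `2 d` different points of `U` impose independent conditions on `H⁰(X, K_X)`. Then the
following are equivalent:

1. `W` is of general type;
2. the canonical map of `W`, given by `H⁰(K_W)`, is generically finite;
3. `W` is not covered by rational or elliptic curves;
4. `W` has no fibration over a variety of general type of dimension `m = dim W - 1` whose geometric
   generic fibre is a rational or elliptic curve.

Rational and elliptic curves have infinitely many maps to themselves which fix a given point. So if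
`W` is covered by such curves then it is not pseudo-geometrically hyperbolic (this remark is not part
of the Lean proof). Hence a pseudo-geometrically hyperbolic variety `W` in this class is of general
type, as predicted by Lang's conjecture, and then already the canonical map is generically finite;
if `W` is not of general type then it is not hyperbolic for a simple reason, and the curves are the
fibres of a fibration over a variety of general type.

Examples for `X`: smooth hypersurfaces of degree at least `m + 1 + 2 d` in projective space, or more
generally varieties such that `K_X - (2 d - 1) H` is effective for a divisor `H` which defines a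
birational map to a projective space. There is no condition on the irregularity: in the first example
`q(X) = 0` if `m > 1`, and `q(W) = 0` is possible, so the Albanese map of `W` may be constant. Some
condition of this kind is necessary: a Kummer surface `W = (X × C) / {± 1}` with elliptic curves `X`
and `C` (so `d = 2`, and one point is separated) is not of general type, but has no fibration over a
variety of general type.

Proof. Let `f` be a canonical form on `X` and `φ` a differential on `C`. The trace of the product of
their pullbacks is a canonical form on `W`. Suppose that two generic points `P`, `Q` of `W` have the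
same image under the canonical map. This gives linear relations between the values of `f` at the at
most `2 d` points of `X` below `P` and `Q`. As these points are separated, the coefficients of `f(x)`
vanish; they are combinations of the traces `t_φ` of the `φ` on the fibre over `x`, i.e. on the image
`R_x` of `{x} × C` in `W × X`. If all `t_φ` are zero then `R_x` is rational (see the theorem
`ProductWithCurveKlt` of the team), and otherwise the same points of `X` are below `P` and `Q`, and
`t_φ(Q) = λ t_φ(P)` with the same `λ` for all `φ`. So if a ratio `t_φ / t_ψ` is not constant on `R_x`
then the canonical map is generically finite. If all these ratios are constant then the traces on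
`R_x` of the differentials of `C` are multiples of one differential. By base change to the algebraic
closure of the function field of `X` this holds for all regular differentials of the geometric
generic fibre `C_Λ`. The pullback to `C_Λ` of a regular differential of `R_x` has as its trace a
multiple of itself, so all regular differentials of `R_x` are proportional. By duality (the canonical
system of a curve which is not rational has no base points) `R_x` is rational or has a vector field
without zeros and poles. The curves `R_x` are the fibres of a map `W ⇢ Z`, where the function field
of `Z` consists of the functions which are algebraic over the ratios of the canonical forms; `Z` is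
dominated by `X`, with degree at most `d`, and it is of general type by the first part.

Conversely let `W` be covered by rational or elliptic curves. A pluricanonical form on `W`, regular at
all prime divisors, gives by contraction with vector fields on the base of the family a
pluricanonical form of the geometric generic curve which is regular: its places are prime divisors
over `ℂ`, and the vector fields can be adapted to each of them. On a rational or elliptic curve two
such forms are proportional. So the ratios of pluricanonical forms of `W` are constant on the curves,
and `W` is not of general type.

The parts of the Lean proof on pull-backs, products, the geometric generic fibre, the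
correspondences on rational curves and the traces on the fibres are due to helpers 123, 221, 160, 279,
603, 545, 281, 438, 277, 999, 297, 273 and 459.
-/

set_option autoImplicit false
set_option linter.overlappingInstances false
set_option maxHeartbeats 4000000
set_option synthInstance.maxHeartbeats 400000

open FF Module IntermediateField Pool.Agent Pool.Agent.W602.GT

namespace Pool.Agent.Results.MP_5b1cbc_ag.ProductWithCurveLang

/-- **The canonical forms separate `r` general points.** `E` is the function field of a variety `X` of
dimension `m`, and `D` a rational frame of the tangent bundle. The embeddings `σ : E → Ω` are the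
generic points of `X` with coordinates in the field `Ω`. At most `r` different such points impose
independent conditions on the canonical forms `ω` which are regular at all prime divisors: if
`∑ c σ * σ (ω D) = 0` for all `ω` then all the coefficients `c σ` are zero. -/
def SeparatesPoints (E : Type) [Field E] [Algebra ℂ E] (m r : ℕ) : Prop :=
  ∀ D : Fin m → Derivation ℂ E E, LinearIndependent E D →
    ∀ (Ω : Type) [Field Ω] [Algebra ℂ Ω] [IsAlgClosed Ω] (A : Finset (E →ₐ[ℂ] Ω)), A.card ≤ r →
    ∀ c : (E →ₐ[ℂ] Ω) → Ω,
    (∀ ω : (Fin m → Derivation ℂ E E) → E, IsPluri 1 ω →
      (∀ P : Place ℂ E, Divisorial m P → RegAt P ω) → ∑ σ ∈ A, c σ * σ (ω D) = 0) →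
    ∀ σ ∈ A, c σ = 0

/-- The canonical map of the varieties with function field `L`, of dimension `w`, is generically
finite: there are canonical forms, regular at all prime divisors, whose ratios contain `w`
algebraically independent functions. (For pluricanonical forms this is `GeneralType`.) -/
def CanonicalMapGenericallyFinite (L : Type) [Field L] [Algebra ℂ L] (w : ℕ) : Prop :=
  ∃ ω : Fin (w + 1) → (Fin w → Derivation ℂ L L) → L,
    (∀ j, IsPluri 1 (ω j) ∧ ∀ P : Place ℂ L, Divisorial w P → RegAt P (ω j)) ∧
    ∃ D, ω 0 D ≠ 0 ∧ AlgebraicIndependent ℂ (fun i : Fin w => ω i.succ D / ω 0 D)

/-- The curve with the function field `F` over the algebraically closed field `Λ` is rational, i.e.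
`F = Λ(t)`, or elliptic, i.e. it has a vector field `D` without zeros and poles: `D t` is a unit
for the uniformizers `t` at all points `w`. -/
def IsRationalOrElliptic (Λ F : Type) [Field Λ] [Field F] [Algebra Λ F] : Prop :=
  (∃ t : F, Λ⟮t⟯ = ⊤) ∨ ∃ D : Derivation Λ F F, ∀ (w : Place Λ F) (t : F), w.ord t = 1 →
    D t ≠ 0 ∧ w.ord (D t) = 0

/-- The variety with the function field `L`, of dimension `m + 1`, is covered by an `m`-dimensional
family of rational or elliptic curves: there are an algebraically closed field `Λ` of transcendence
degree `m` (the algebraic closure of the function field of the base of the family) and a curve over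
`Λ` with function field `F` (the geometric generic curve of the family), which is rational or
elliptic, and an embedding of `L` into `F` (the dominant map from the total space to `W`). -/
def IsCoveredByRationalOrElliptic (L : Type) [Field L] [Algebra ℂ L] (m : ℕ) : Prop :=
  ∃ (Λ F : Type) (_ : Field Λ) (_ : Field F) (_ : Algebra ℂ Λ) (_ : Algebra ℂ F)
    (_ : Algebra Λ F) (_ : IsScalarTower ℂ Λ F) (_ : IsAlgClosed Λ) (_ : IsFF Λ F),
    Algebra.trdeg ℂ Λ = m ∧ IsRationalOrElliptic Λ F ∧ Nonempty (L →ₐ[ℂ] F)

/-- There is a fibration `W ⇢ Z` over a variety `Z` of general type and of dimension `m` whose
geometric generic fibre is a rational or elliptic curve. In terms of the function field `L` of `W`: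
there is a subfield `N` (the function field of `Z`), algebraically closed in `L` and of transcendence
degree `m`, such that `Z` is of general type, and for an algebraic closure `Λ` of `N` and a curve
with function field `F` over `Λ`, generated by the image of an embedding of `L` over `N` (so `F` is
the function field of the geometric generic fibre), the curve is rational or elliptic. -/
def IsFibredOverGeneralType (L : Type) [Field L] [Algebra ℂ L] (m : ℕ) : Prop :=
  ∃ N : IntermediateField ℂ L, (∀ z : L, IsAlgebraic N z → z ∈ N) ∧ GeneralType ℂ N m ∧
    ∃ (Λ F : Type) (_ : Field Λ) (_ : Field F) (_ : Algebra N Λ) (_ : Algebra N F)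
      (_ : Algebra Λ F) (_ : IsScalarTower N Λ F) (_ : IsAlgClosed Λ)
      (_ : Algebra.IsAlgebraic N Λ) (_ : IsFF Λ F) (ψ : L →ₐ[N] F),
      IntermediateField.adjoin Λ (Set.range ψ) = ⊤ ∧ IsRationalOrElliptic Λ F

theorem glo_iff {Λ F : Type} [Field Λ] [Field F] [Algebra Λ F] [CharZero Λ] [IsAlgClosed Λ]
    [IsFF Λ F] : N145.SX.GLO Λ F ↔ IsRationalOrElliptic Λ F := by
  unfold IsRationalOrElliptic
  simp only [N145.SX.flat_iff]
  exact ⟨N145.SX.flat_of_glo, N145.SX.glo_of_flat⟩

theorem cover_iff (L : Type) [Field L] [Algebra ℂ L] (m : ℕ) :
    N145.SX.Cov1 L m ↔ IsCoveredByRationalOrElliptic L m := by
  constructor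
  · rintro ⟨Λ, F, i1, i2, i3, i4, i5, i6, i7, i8, h1, h2, h3⟩
    have hch : CharZero Λ := charZero_of_injective_algebraMap (algebraMap ℂ Λ).injective
    exact ⟨Λ, F, i1, i2, i3, i4, i5, i6, i7, i8, h1, glo_iff.1 h2, h3⟩
  · rintro ⟨Λ, F, i1, i2, i3, i4, i5, i6, i7, i8, h1, h2, h3⟩
    have hch : CharZero Λ := charZero_of_injective_algebraMap (algebraMap ℂ Λ).injective
    exact ⟨Λ, F, i1, i2, i3, i4, i5, i6, i7, i8, h1, glo_iff.2 h2, h3⟩

theorem fib_iff (L : Type) [Field L] [Algebra ℂ L] (m : ℕ) :
    (∃ N : IntermediateField ℂ L, (∀ z : L, IsAlgebraic N z → z ∈ N) ∧ Algebra.trdeg ℂ N = m ∧
      KodGe ℂ N m (fun _ => False) m ∧ N145.SX.GeoFib L N) ↔ IsFibredOverGeneralType L m := by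
  constructor
  · rintro ⟨N, h1, h2, h3, Λ, F, i1, i2, i3, i4, i5, i6, i7, i8, i9, ψ, h4, h5⟩
    have hch' : CharZero N := charZero_of_injective_algebraMap (algebraMap ℂ N).injective
    have hch : CharZero Λ := charZero_of_injective_algebraMap (algebraMap N Λ).injective
    exact ⟨N, h1, (N145.SX.kodGe_iff h2).1 h3, Λ, F, i1, i2, i3, i4, i5, i6, i7, i8, i9, ψ, h4,
      glo_iff.1 h5⟩
  · rintro ⟨N, h1, h3, Λ, F, i1, i2, i3, i4, i5, i6, i7, i8, i9, ψ, h4, h5⟩
    have hch' : CharZero N := charZero_of_injective_algebraMap (algebraMap ℂ N).injective
    have hch : CharZero Λ := charZero_of_injective_algebraMap (algebraMap N Λ).injective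
    exact ⟨N, h1, h3.1, (N145.SX.kodGe_iff h3.1).2 h3, Λ, F, i1, i2, i3, i4, i5, i6, i7, i8, i9, ψ,
      h4, glo_iff.2 h5⟩

/-- **General type and coverings by rational or elliptic curves.** Let `K` be the function field of
`X × C`, i.e. the compositum of the function fields `E` of the variety `X` of dimension `m` and `C` of
the curve, of transcendence degree `m + 1`. Let `L ⊆ K` be the function field of a variety `W` such
that the extension is finite, and let `d` be the degree over `W` of the image of `X × C` in `W × X`.
If the canonical forms of `X` separate `2 d` general points, then the following are equivalent: `W` is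
of general type; the canonical map of `W` is generically finite; `W` is not covered by rational or
elliptic curves; `W` has no fibration over a variety of general type of dimension `m` whose geometric
generic fibre is a rational or elliptic curve. -/
theorem result (K : Type) [Field K] [Algebra ℂ K] [Algebra.EssFiniteType ℂ K] (m : ℕ)
    (E C : IntermediateField ℂ K) [Algebra.EssFiniteType ℂ E] [IsFF ℂ C] (hEC : E ⊔ C = ⊤)
    (hE : Algebra.trdeg ℂ E = m) (hK : Algebra.trdeg ℂ K = (m + 1 : ℕ)) (L : Type) [Field L]
    [Algebra ℂ L] [Algebra L K] [IsScalarTower ℂ L K] [FiniteDimensional L K]
    (hX : SeparatesPoints E m (2 * finrank L (IntermediateField.adjoin L (E : Set K)))) :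
    [GeneralType ℂ L (m + 1), CanonicalMapGenericallyFinite L (m + 1),
      ¬ IsCoveredByRationalOrElliptic L m, ¬ IsFibredOverGeneralType L m].TFAE := by
  obtain ⟨x, D, hx, hD⟩ := Pool.Agent.Y172.exists_crd hE
  have hL : Algebra.trdeg ℂ L = (m + 1 : ℕ) := Pool.Agent.Y184.NT.trdeg_below (K := K) hK
  have h := N145.SX.lang_all (L := L) hEC hE hK hx
    (N145.SX.sepX_of' hx hD fun Ω _ _ _ A hA c hc => hX D (N145.SX.dual_indep hD) Ω A hA c hc)
    (Nat.lt_succ_self _)
  rwa [N145.SX.kodGe_iff hL, cover_iff, fib_iff] at h

end Pool.Agent.Results.MP_5b1cbc_ag.ProductWithCurveLang
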