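import Pool.Agent.N126.RC.Pointed

/-!
MP_5b1cbc_ag, Q1: all projective varieties which are generically finite over a finite covering,
sufficiently ramified over generic hypersurface sections, of an arbitrary projective variety, are of
general type and pseudo-geometrically hyperbolic.

Let `K` be an algebraically closed field of characteristic `0`, and let `k` be a field contained in
`K`, with algebraic closure `k'` in `K`. Let `V` be a closed subset of the projective `n`-space over
`k'`, of dimension at most `m`, and let `F_a`, for `a` in a finite set `A`, be generic forms of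
degrees `d_a` (`Generic`: the ratios of their coefficients are algebraically independent over `k`).

Let `X` be a closed subset of the weighted projective space over `K` with the coordinates
`x_0, …, x_n` of weight `1` and `u_w` of weight `e_w`, `w ∈ W`, with equations `G_i = 0`, such that

* `(x, u) ↦ x` is a finite morphism on `X` (`FiniteOver`), with image in `V` and in the hypersurfaces
  `F_a = 0`, `a ∈ C` (`Over`); `C` is a subset of `A`, for example empty;
* for the `a` not in `C`, this morphism is ramified of order at least `q_a ≥ 1` over `F_a = 0`
  (`RamifiedOver`: locally on `X`, the function `F_a` is in the `q_a`-th power of an ideal whose set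
  of zeros contains `{F_a = 0}`; if `X` is smooth, then this means that the inverse image of the
  divisor `F_a = 0` has multiplicity at least `q_a` at each of its components).

Suppose that `∑_{a ∈ C} (d_a + 1) + ∑_{a ∉ C} d_a (1 - 1 / q_a) > 2 m`. Let `M` be ANY projective
variety over `K`, of dimension `w ≥ 1`, with a generically finite rational map to `X`, for instance a
closed subvariety of `X`: `M` is given by its function field `L` and its generic point `y`, in
homogeneous coordinates, and the map by the image `z` of the generic point, in coordinates with
`z (inl c) = 1`. Then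

* `M` is of general type;
* `M` is pseudo-geometrically hyperbolic (`PseudoGeomHyp`, `Pool/Agent/W602/RG/TB.lean`): off a proper
  closed subset of `M`, for every pointed curve there are only finitely many morphisms to `M` with a
  given value at the marked point;
* off a proper closed subset of `M`, the degree of a map from a curve of genus `g` to `M` is at most
  `B max (2 g - 2, 0)`, with a constant `B` (`CurveBound`, `Pool/Agent/Y216/Point.lean`).
-/

set_option autoImplicit false

namespace Pool.Agent.Results.MP_5b1cbc_ag.RamifiedPointed

open MvPolynomial Pool.Agent.N126.RC Pool.Agent.TH145.MG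
open Pool.Agent.W602.GT (GeneralType coords)
open Pool.Agent.W602.RG (PseudoGeomHyp)

theorem result {k K : Type} [Field k] [Field K] [IsAlgClosed K] [CharZero K] [Algebra k K]
    {n m : ℕ}
    -- a closed subset of projective space, of dimension at most `m`
    (V : Set (MvPolynomial (Fin (n + 1)) (algebraicClosure k K)))
    (hVh : ∀ f ∈ V, ∃ e, f.IsHomogeneous e) (hV : DimLE (algebraicClosure k K) V m)
    -- generic forms
    {A : Type} [Fintype A] [DecidableEq A] (d : A → ℕ) (F : A → MvPolynomial (Fin (n + 1)) K)
    (hF : Generic k d F)
    -- the numerical condition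
    (C : Finset A) (q : A → ℕ) (hq : ∀ a, a ∉ C → q a ≠ 0)
    (hd : (2 * m : ℚ) < ∑ a ∈ C, ((d a : ℚ) + 1) + ∑ a ∈ Cᶜ, (d a : ℚ) * (1 - 1 / q a))
    -- the projective variety `X = {G = 0}`, finite over `V ∩ ⋂ {F a = 0}`, `a ∈ C`, and ramified
    {W ι : Type} [Finite W] (e : W → ℕ) (G : ι → MvPolynomial (Fin (n + 1) ⊕ W) K)
    (hG : ∀ i, ∃ c, (G i).IsWeightedHomogeneous (wts e) c) (hfin : FiniteOver G)
    (hov : Over V F C G) (hram : ∀ a, a ∉ C → RamifiedOver G (F a) (q a))
    -- the variety `M`, and the generically finite rational map `z` to `X`
    {L : Type} [Field L] [Algebra K L] {N w : ℕ} (y : Fin (N + 1) → L) (hy : y ≠ 0)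
    (hgen : coords K y = ⊤) (hw : 0 < w) (htr : Algebra.trdeg K L = w)
    (z : Fin (n + 1) ⊕ W → L) (c : Fin (n + 1)) (hc : z (Sum.inl c) = 1)
    (hz : ∀ i, aeval z (G i) = 0)
    (halg : Algebra.IsAlgebraic (IntermediateField.adjoin K (Set.range z)) L) :
    GeneralType K L w ∧ PseudoGeomHyp K y ∧ Pool.Agent.Y216.CurveBound K y :=
  pointed_main V hVh hV F hF C hq hd e G hG hfin hov hram y hy hgen hw htr z c hc hz halg

end Pool.Agent.Results.MP_5b1cbc_ag.RamifiedPointed
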