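import Pool.Agent.R871.SG.AlgE

/-!
MP_5b1cbc_ag, Q1: pointed finiteness is a property of the holomorphic maps of slow growth.
-/

set_option autoImplicit false

namespace Pool.Agent.Results.MP_5b1cbc_ag.SlowPointedMaps

open Pool.Agent.R871.SG MvPolynomial

/-- Let `C` be an irreducible affine variety in `ℂ^p` (for instance an affine curve), with the prime
ideal `I`, and `c` a point.

(1) Let `X ⊂ ℙ(ℂ^σ)` be the projective variety `{F = 0}`, and `x ≠ 0` the homogeneous coordinates of a
point of the projective space. There is a function `φ` with `φ r / log r → ∞` for `r → ∞`, such that for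
all finite sets `S` of polynomial maps the following are equivalent.

(a) All algebraic maps from `C` to `X`, given by polynomials on `C`, which map `c` to `x`, are in `S`.

(b) All holomorphic maps from `C` to `X`, given by an entire map `f` on `ℂ^p` such that
`log ‖f z‖ ≤ φ r` on the polydisc of radius `r`, for arbitrarily large `r`, which map `c` to `x`, are
in `S`.

So if only finitely many algebraic maps map `c` to `x`, then all holomorphic maps of slow growth which
map `c` to `x` are algebraic, and these are only finitely many.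

(2) The same for the maps to an affine variety `{F = 0}`: there is such a `φ` such that, if there are
only finitely many algebraic maps from `C` to the affine variety which map `c` to `x`, then the
holomorphic maps of slow growth which map `c` to `x` are the algebraic ones. -/
theorem result {p : ℕ} {σ ι : Type} [Fintype σ] (I : Ideal (MvPolynomial (Fin p) ℂ)) [I.IsPrime]
    (F : ι → MvPolynomial σ ℂ) (c : Fin p → ℂ) (x : σ → ℂ) :
    (x ≠ 0 → ∃ φ : ℝ → ℝ, Grows φ ∧ ∀ S : Set (σ → MvPolynomial (Fin p) ℂ), S.Finite →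
      ((∀ P : σ → MvPolynomial (Fin p) ℂ, HolOn I F (mv P) → (∃ a : ℂ, a ≠ 0 ∧ mv P c = a • x) →
        ∃ Q ∈ S, SameOn I (mv P) (mv Q)) ↔
      ∀ f, HolOn I F f → SlowM φ f → (∃ a : ℂ, a ≠ 0 ∧ f c = a • x) →
        ∃ Q ∈ S, SameOn I f (mv Q))) ∧
    ∃ φ : ℝ → ℝ, Grows φ ∧ PolMaps I F c x ⊆ SlowMaps φ I F c x ∧
      ((PolMaps I F c x).Finite ↔ (SlowMaps φ I F c x).Finite) ∧
      ((PolMaps I F c x).Finite → SlowMaps φ I F c x = PolMaps I F c x) := by
  refine ⟨fun hx => ?_, ?_⟩
  · obtain ⟨φ, hφ, h⟩ := pointed_proj I F c hx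
    exact ⟨φ, hφ, fun S hS => ⟨fun h1 => h S hS h1, fun h1 P hP hc => h1 _ hP (mv_slow hφ P) hc⟩⟩
  · obtain ⟨φ, hφ, h1, h2⟩ := pointed_finite I F c x
    exact ⟨φ, hφ, h1, ⟨fun h3 => by rw [h2 h3]; exact h3, fun h3 => h3.subset h1⟩, h2⟩

end Pool.Agent.Results.MP_5b1cbc_ag.SlowPointedMaps
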